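import Pool.Agent.H326R2.Pi.Stmts
import Pool.Agent.H346R2.Pi.Bases

/-!
# Digits of `π`: periodic blocks and digit changes, from the measure of irrationality
-/

open Filter

namespace Pool.Agent.H326R2.Pi

/-- no long periodic block in any base -/
theorem blocks_of_main (h : S_main) : ∃ N0 : ℕ, ∀ b : ℕ, 2 ≤ b → ∀ N : ℕ, N0 ≤ N → ∀ s : ℕ, 1 ≤ s →
    ∃ i : ℕ, N < i ∧ (i : ℝ) ≤ N + 5.051 * (N + s) ∧
      ⌊Real.pi * (b : ℝ) ^ (i + s)⌋ % (b : ℤ) ≠ ⌊Real.pi * (b : ℝ) ^ i⌋ % (b : ℤ) := by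
  obtain ⟨q0, hq0⟩ := h
  refine ⟨max q0 1000, fun b hb N hN s hs => ?_⟩
  have hN1 : 1000 ≤ N := le_trans (le_max_right _ _) hN
  have hNq : q0 ≤ N := le_trans (le_max_left _ _) hN
  have hNR : (1000 : ℝ) ≤ N := by exact_mod_cast hN1
  have hsR : (1 : ℝ) ≤ s := by exact_mod_cast hs
  obtain ⟨l, hl⟩ : ∃ l, l = ⌈5.05 * ((N : ℝ) + s)⌉₊ := ⟨_, rfl⟩
  have hl1 : 5.05 * ((N : ℝ) + s) ≤ l := by rw [hl]; exact Nat.le_ceil _
  have hl2 : (l : ℝ) < 5.05 * ((N : ℝ) + s) + 1 := by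
    rw [hl]; exact Nat.ceil_lt_add_one (by positivity)
  obtain ⟨q, hq⟩ : ∃ q : ℕ, q = b ^ N * (b ^ s - 1) := ⟨_, rfl⟩
  have hbs : 1 ≤ b ^ s := Nat.one_le_pow _ _ (by omega)
  have hbs1 : 1 ≤ b ^ s - 1 := by
    have : b ^ 1 ≤ b ^ s := Nat.pow_le_pow_right (by omega) hs
    rw [pow_one] at this
    omega
  have hqN : N ≤ q := by
    have h1 : N < b ^ N := Nat.lt_pow_self (by omega)
    have h2 : b ^ N * 1 ≤ b ^ N * (b ^ s - 1) := Nat.mul_le_mul_left _ hbs1
    rw [hq]; omega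
  have hqpos : (0 : ℝ) < q := by
    have : 0 < q := by omega
    exact_mod_cast this
  obtain ⟨i, hi1, hi2, hi3⟩ := H346R2.Pi.no_run Real.pi b hb N s l hs 5.05 (by norm_num) hl1 (fun p => by
    have h1 := hq0 q (by omega) p
    rw [← hq]
    have h4 : |Real.pi - p / q| = |q * Real.pi - p| / q := by
      rw [← abs_of_pos hqpos, ← abs_div, abs_of_pos hqpos]
      congr 1
      field_simp
    rw [h4, le_div_iff₀ hqpos] at h1
    refine le_trans (le_of_eq ?_) h1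
    conv_rhs => rw [← Real.rpow_one (q : ℝ), ← Real.rpow_mul hqpos.le, ← Real.rpow_add hqpos]
    rw [Real.rpow_def_of_pos hqpos]
    congr 1; ring)
  refine ⟨i, hi1, ?_, hi3⟩
  have : (i : ℝ) ≤ N + l := by exact_mod_cast hi2
  linarith


/-- the `i`-th digit of `π` in base `b` -/
noncomputable def dig (b i : ℕ) : ℤ := ⌊Real.pi * (b : ℝ) ^ i⌋ % (b : ℤ)

/-- number of digit changes at positions `< M` -/
noncomputable def nch (b M : ℕ) : ℕ := ((Finset.range M).filter fun i => dig b (i + 1) ≠ dig b i).card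

lemma nch_mono (b : ℕ) {M M' : ℕ} (h : M ≤ M') : nch b M ≤ nch b M' :=
  Finset.card_le_card (Finset.filter_subset_filter _ (Finset.range_mono h))

lemma nch_lt (b i M : ℕ) {N : ℕ} (h1 : N ≤ i) (h2 : i < M) (h : dig b (i + 1) ≠ dig b i) :
    nch b N < nch b M := by
  apply Finset.card_lt_card
  rw [Finset.ssubset_iff_of_subset (Finset.filter_subset_filter _ (Finset.range_mono (by omega)))]
  exact ⟨i, by simp [h2, h], by simp [h1]⟩

/-- at least `log M / log 6.06 - C` digit changes -/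
theorem changes_of_main (h : S_main) : ∃ C : ℝ, ∀ b : ℕ, 2 ≤ b → ∀ M : ℕ, 1 ≤ M →
    Real.log M / Real.log 6.06 - C ≤ nch b M := by
  obtain ⟨N0, hN0⟩ := blocks_of_main h
  obtain ⟨K, hK⟩ : ∃ K : ℕ, K = max N0 10000 := ⟨_, rfl⟩
  have hl : 0 < Real.log 6.06 := Real.log_pos (by norm_num)
  have hKpos : 0 < K := by omega
  have hKR : (10000 : ℝ) ≤ K := by
    have : 10000 ≤ K := by omega
    exact_mod_cast this
  -- step
  have step : ∀ b : ℕ, 2 ≤ b → ∀ j : ℕ, ∃ M : ℕ, K ≤ M ∧ (M : ℝ) ≤ K * 6.06 ^ j ∧ j ≤ nch b M := by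
    intro b hb j
    induction j with
    | zero => exact ⟨K, le_rfl, by simp, Nat.zero_le _⟩
    | succ j ih =>
      obtain ⟨M, h1, h2, h3⟩ := ih
      obtain ⟨i, hi1, hi2, hi3⟩ := hN0 b hb M (by omega) 1 le_rfl
      refine ⟨i + 1, by omega, ?_, ?_⟩
      · have hMR : (10000 : ℝ) ≤ M := hKR.trans (by exact_mod_cast h1)
        push_cast at hi2 ⊢
        have : (i : ℝ) + 1 ≤ 6.06 * M := by linarith
        calc (i : ℝ) + 1 ≤ 6.06 * M := this
          _ ≤ 6.06 * (K * 6.06 ^ j) := by linarith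
          _ = K * 6.06 ^ (j + 1) := by rw [pow_succ]; ring
      · exact lt_of_le_of_lt h3 (nch_lt b i (i + 1) hi1.le (Nat.lt_succ_self i) hi3)
  refine ⟨Real.log K / Real.log 6.06 + 1, fun b hb M hM => ?_⟩
  have hMpos : (0 : ℝ) < M := by exact_mod_cast hM
  have hKpos' : (0 : ℝ) < K := by linarith
  rcases le_or_gt K M with hKM | hKM
  · obtain ⟨j, hj⟩ : ∃ j : ℕ, j = ⌊Real.log (M / K) / Real.log 6.06⌋₊ := ⟨_, rfl⟩
    have hnn : 0 ≤ Real.log (M / K) / Real.log 6.06 := by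
      apply div_nonneg _ hl.le
      apply Real.log_nonneg
      rw [one_le_div hKpos']
      exact_mod_cast hKM
    have hj1 : (j : ℝ) ≤ Real.log (M / K) / Real.log 6.06 := by rw [hj]; exact Nat.floor_le hnn
    have hj2 : Real.log (M / K) / Real.log 6.06 < j + 1 := by rw [hj]; exact Nat.lt_floor_add_one _
    obtain ⟨M', h1, h2, h3⟩ := step b hb j
    have h4 : (K : ℝ) * 6.06 ^ j ≤ M := by
      rw [le_div_iff₀ hl] at hj1
      have h5 : Real.log ((6.06 : ℝ) ^ j) ≤ Real.log (M / K) := by rw [Real.log_pow]; exact hj1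
      have h6 := (Real.log_le_log_iff (by positivity) (by positivity)).mp h5
      rw [le_div_iff₀ hKpos'] at h6
      linarith
    have h5 : M' ≤ M := by exact_mod_cast h2.trans h4
    have h6 : (j : ℝ) ≤ nch b M := by exact_mod_cast h3.trans (nch_mono b h5)
    rw [Real.log_div hMpos.ne' hKpos'.ne', sub_div] at hj2
    linarith
  · have h1 : Real.log M / Real.log 6.06 ≤ Real.log K / Real.log 6.06 := by
      apply div_le_div_of_nonneg_right _ hl.le
      exact Real.log_le_log hMpos (by exact_mod_cast hKM.le)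
    have h2 : (0 : ℝ) ≤ nch b M := Nat.cast_nonneg _
    linarith

end Pool.Agent.H326R2.Pi
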