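import Pool.Agent.H326R2.Pi.All
import Pool.Agent.H726R2.PiA.T8

/-! # The measure of irrationality of `π` -/

namespace Pool.Agent.H326R2.Pi

open Pool.Agent

/-- `|π - p/q| ≥ q^(-6.05)` for all large `q` -/
theorem main : S_main := all_of (H726R2.PiA.two_of H52R2.PiT6.S_hom_proof H409R2.Pi.s_disc)

end Pool.Agent.H326R2.Pi
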