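import Pool.Agent.H326R2.Pi.Digits
import Pool.Agent.H326R2.Pi.Top

/-! # Digits of `π` -/

namespace Pool.Agent.H326R2.Pi

/-- no long periodic block, any base -/
theorem blocks : ∃ N0 : ℕ, ∀ b : ℕ, 2 ≤ b → ∀ N : ℕ, N0 ≤ N → ∀ s : ℕ, 1 ≤ s →
    ∃ i : ℕ, N < i ∧ (i : ℝ) ≤ N + 5.051 * (N + s) ∧
      ⌊Real.pi * (b : ℝ) ^ (i + s)⌋ % (b : ℤ) ≠ ⌊Real.pi * (b : ℝ) ^ i⌋ % (b : ℤ) :=
  blocks_of_main main

/-- number of digit changes, any base -/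
theorem changes : ∃ C : ℝ, ∀ b : ℕ, 2 ≤ b → ∀ M : ℕ, 1 ≤ M →
    Real.log M / Real.log 6.06 - C ≤ nch b M :=
  changes_of_main main

end Pool.Agent.H326R2.Pi
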