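import Pool.Agent.H326R2.Pi.Stmts

/-!
# Final deduction of the measure of irrationality of `π`
-/

open Polynomial Filter

namespace Pool.Agent.H326R2.Pi

lemma log_bound (ε : ℝ) (hε : 0 < ε) : ∀ᶠ n : ℕ in atTop, (16000 * (n : ℝ) ^ 2) ≤ Real.exp (ε * n) := by
  have h := (isLittleO_pow_exp_pos_mul_atTop 2 hε).comp_tendsto tendsto_natCast_atTop_atTop
  have h2 := h.bound (show (0 : ℝ) < 1 / 16000 by norm_num)
  filter_upwards [h2] with n hn
  simp only [Function.comp_apply, norm_pow, Real.norm_eq_abs, Real.abs_exp, Nat.abs_cast] at hn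
  linarith

lemma kap_le (n : ℕ) (hn : 0 < n) : (2 : ℝ) ^ kap n ≤ 1000 * (n : ℝ) ^ 2 := by
  have h : 2 ^ kap n ≤ 1000 * n ^ 2 := Nat.pow_log_le_self 2 (by positivity)
  exact_mod_cast h

lemma kap_ge (n : ℕ) : (1 : ℝ) ≤ (2 : ℝ) ^ kap n := one_le_pow₀ (by norm_num)

attribute [local irreducible] Mn kk kap qq

theorem main_of (h_small : S_small) (h_den : S_den) (h_kreg : S_kreg) (h_kpos : S_kpos)
    (h_Mn : S_Mn) (h_Mnpos : ∀ n : ℕ, 0 < Mn n) (h_sav : S_sav) (h_abs : S_abs) : S_main := by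
  obtain ⟨g, hg0, hg, hk⟩ := h_kreg
  obtain ⟨hs1, hs2⟩ := h_sav
  -- the solutions
  obtain ⟨T, hT⟩ : ∃ T : ℕ, T = 1000000 := ⟨_, rfl⟩
  obtain ⟨TR, hTR⟩ : ∃ TR : ℝ, TR = 1000000 := ⟨_, rfl⟩
  have hTT : (T : ℝ) = TR := by rw [hT, hTR]; norm_num
  have hT1 : 0 < T := by rw [hT]; norm_num
  have hΨ : ∀ n : ℕ, ∃ Ψ : ℚ[X], T ≤ n → Sol n (kk n) Ψ ∧
      ∃ b : ℤ, (2 ^ kap n * Mn n : ℚ) * qq n Ψ = b := by
    intro n
    by_cases hn : T ≤ n
    · obtain ⟨Ψ, h⟩ := h_den n (by rw [← hT]; exact hn)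
      exact ⟨Ψ, fun _ => h⟩
    · exact ⟨0, fun h => absurd h hn⟩
  choose Ψ hΨ using hΨ
  obtain ⟨A, hA⟩ : ∃ A : ℕ → ℝ, A = fun n => (2 : ℝ) ^ kap n * Mn n * kk n := ⟨_, rfl⟩
  obtain ⟨B, hB⟩ : ∃ B : ℕ → ℝ, B = fun n => (2 : ℝ) ^ kap n * Mn n * (qq n (Ψ n) : ℝ) := ⟨_, rfl⟩
  obtain ⟨L, hL⟩ : ∃ L : ℝ, L = 4 - sav := ⟨_, rfl⟩
  have hall : ∀ᶠ n : ℕ in atTop, T ≤ n ∧
      (Real.exp ((L - 0.0001) * n) ≤ Mn n ∧ (Mn n : ℝ) ≤ Real.exp ((L + 0.0001) * n)) ∧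
      (Mn (n + 1) : ℝ) ≤ Real.exp ((L + 0.0001) * ((n + 1 : ℕ) : ℝ)) ∧
      (Real.exp ((g - 0.0001) * n) ≤ kk n ∧ (kk n : ℝ) ≤ Real.exp ((g + 0.0001) * n)) ∧
      (kk (n + 1) : ℝ) ≤ Real.exp ((g + 0.0001) * ((n + 1 : ℕ) : ℝ)) ∧
      (16000 * (n : ℝ) ^ 2) ≤ Real.exp (0.0001 * n) ∧
      (16000 * (((n + 1 : ℕ) : ℝ)) ^ 2) ≤ Real.exp (0.0001 * ((n + 1 : ℕ) : ℝ)) := by
    have e1 := h_Mn 0.0001 (by norm_num)
    rw [← hL] at e1
    have e2 := hk 0.0001 (by norm_num)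
    have e3 := log_bound 0.0001 (by norm_num)
    have e1' : ∀ᶠ n : ℕ in atTop, (Mn (n + 1) : ℝ) ≤ Real.exp ((L + 0.0001) * ((n + 1 : ℕ) : ℝ)) :=
      ((tendsto_add_atTop_nat 1).eventually e1).mono fun n hn => hn.2
    have e2' : ∀ᶠ n : ℕ in atTop, (kk (n + 1) : ℝ) ≤ Real.exp ((g + 0.0001) * ((n + 1 : ℕ) : ℝ)) :=
      ((tendsto_add_atTop_nat 1).eventually e2).mono fun n hn => hn.2
    have e3' : ∀ᶠ n : ℕ in atTop, (16000 * (((n + 1 : ℕ) : ℝ)) ^ 2) ≤ Real.exp (0.0001 * ((n + 1 : ℕ) : ℝ)) :=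
      (tendsto_add_atTop_nat 1).eventually e3
    filter_upwards [eventually_ge_atTop T, e1, e1', e2, e2', e3, e3'] with n h0 h1 h2 h3 h4 h5 h6
    exact ⟨h0, h1, h2, h3, h4, h5, h6⟩
  obtain ⟨n0, hn0⟩ := eventually_atTop.mp hall
  have hL0 : 0 ≤ L := by linarith
  have hLb : L ≤ 3.7074 := by linarith
  have hbig : ∀ n : ℕ, T ≤ n → L + g + 0.0003 ≤ 0.0001 * (n : ℝ) := by
    intro n hn
    have h1 : TR ≤ n := by rw [← hTT]; exact_mod_cast hn
    rw [hTR] at h1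
    linarith
  clear hTT hT hTR hall hs1 hs2 hL h_Mn hk
  have key := h_abs Real.pi irrational_pi A B n0 (L + g + 0.0003) (6.53 - L - 0.0003) 0.0006 5.05
    (by
      intro n hn
      exact ⟨2 ^ kap n * Mn n * kk n, by rw [hA]; push_cast; ring⟩)
    (by
      intro n hn
      obtain ⟨h0, -⟩ := hn0 n hn
      obtain ⟨-, b, hb⟩ := hΨ n h0
      refine ⟨b, ?_⟩
      rw [hB]
      have := congrArg (fun t : ℚ => (t : ℝ)) hb
      push_cast at this
      exact this)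
    (by
      intro n hn
      rw [hA]
      have h1 : (0 : ℝ) < Mn n := by exact_mod_cast h_Mnpos n
      have h2 : (0 : ℝ) < kk n := by exact_mod_cast h_kpos n
      positivity)
    (by
      intro n hn
      obtain ⟨h0, ⟨-, h1⟩, -, -, -, h5, -⟩ := hn0 n hn
      have hn1 : 0 < n := by omega
      have hs := h_small n hn1 (kk n) (Ψ n) (hΨ n h0).1
      have e : A n * Real.pi + B n = (2 : ℝ) ^ kap n * Mn n * ((kk n : ℝ) * Real.pi + (qq n (Ψ n) : ℝ)) := by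
        rw [hA, hB]; ring
      have hM : (0 : ℝ) < Mn n := by exact_mod_cast h_Mnpos n
      have hk2 := kap_le n hn1
      rw [e, abs_mul, abs_of_pos (by positivity)]
      calc (2 : ℝ) ^ kap n * Mn n * |(kk n : ℝ) * Real.pi + (qq n (Ψ n) : ℝ)|
          ≤ (1000 * (n : ℝ) ^ 2) * Real.exp ((L + 0.0001) * n) * (16 * Real.exp (-(6.53 * n))) := by
            gcongr
        _ = (16000 * (n : ℝ) ^ 2) * (Real.exp ((L + 0.0001) * n) * Real.exp (-(6.53 * n))) := by ring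
        _ ≤ Real.exp (0.0001 * n) * (Real.exp ((L + 0.0001) * n) * Real.exp (-(6.53 * n))) := by gcongr
        _ = Real.exp (0.0001 * n + ((L + 0.0001) * n + -(6.53 * n))) := by
            rw [Real.exp_add, Real.exp_add]
        _ ≤ Real.exp (-((6.53 - L - 0.0003) * n)) := by
            apply Real.exp_le_exp.mpr
            have : (0 : ℝ) ≤ n := Nat.cast_nonneg n
            nlinarith)
    (by
      intro n hn
      obtain ⟨h0, ⟨-, h1⟩, -, ⟨-, h3⟩, -, h5, -⟩ := hn0 n hn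
      have hn1 : 0 < n := by omega
      have hk2 := kap_le n hn1
      have hn' : (0 : ℝ) ≤ n := Nat.cast_nonneg n
      have h5' : 1000 * (n : ℝ) ^ 2 ≤ Real.exp (0.0001 * n) := by
        refine le_trans ?_ h5
        nlinarith [sq_nonneg (n : ℝ)]
      have h2 : (0 : ℝ) < kk n := by exact_mod_cast h_kpos n
      rw [hA]
      calc (2 : ℝ) ^ kap n * Mn n * kk n
          ≤ Real.exp (0.0001 * n) * Real.exp ((L + 0.0001) * n) * Real.exp ((g + 0.0001) * n) := by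
            gcongr
            exact hk2.trans h5'
        _ = Real.exp (0.0001 * n + (L + 0.0001) * n + (g + 0.0001) * n) := by
            rw [Real.exp_add, Real.exp_add]
        _ = Real.exp ((L + g + 0.0003) * n) := by congr 1; ring)
    (by
      intro n hn
      obtain ⟨h0, ⟨h1, -⟩, h2, ⟨h3, -⟩, h4, -, h6⟩ := hn0 n hn
      have hn' := hbig n h0
      have hk2 := kap_le (n + 1) (by omega)
      have hk3 := kap_ge n
      have h6' : 1000 * (((n + 1 : ℕ) : ℝ)) ^ 2 ≤ Real.exp (0.0001 * ((n + 1 : ℕ) : ℝ)) := by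
        refine le_trans ?_ h6
        nlinarith [sq_nonneg (((n + 1 : ℕ) : ℝ))]
      have hkp : (0 : ℝ) < kk (n + 1) := by exact_mod_cast h_kpos (n + 1)
      have hkp' : (0 : ℝ) < kk n := by exact_mod_cast h_kpos n
      rw [hA]
      calc (2 : ℝ) ^ kap (n + 1) * Mn (n + 1) * kk (n + 1)
          ≤ Real.exp (0.0001 * ((n + 1 : ℕ) : ℝ)) * Real.exp ((L + 0.0001) * ((n + 1 : ℕ) : ℝ))
            * Real.exp ((g + 0.0001) * ((n + 1 : ℕ) : ℝ)) := by
            gcongr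
            exact hk2.trans h6'
        _ = Real.exp (0.0001 * ((n + 1 : ℕ) : ℝ) + (L + 0.0001) * ((n + 1 : ℕ) : ℝ)
            + (g + 0.0001) * ((n + 1 : ℕ) : ℝ)) := by
            rw [Real.exp_add, Real.exp_add]
        _ ≤ Real.exp (0.0006 * n + ((L - 0.0001) * n + (g - 0.0001) * n)) := by
            apply Real.exp_le_exp.mpr
            push_cast
            nlinarith
        _ = Real.exp (0.0006 * n) * (1 * Real.exp ((L - 0.0001) * n) * Real.exp ((g - 0.0001) * n)) := by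
            rw [Real.exp_add, Real.exp_add]; ring
        _ ≤ Real.exp (0.0006 * n) * ((2 : ℝ) ^ kap n * Mn n * kk n) := by gcongr)
    (by linarith) (by norm_num) (by linarith) (by linarith)
  obtain ⟨q0, hq0⟩ := eventually_atTop.mp key
  refine ⟨max q0 1, fun q hq p => ?_⟩
  have hq1 : 1 ≤ q := le_trans (le_max_right _ _) hq
  have hqpos : (0 : ℝ) < q := by exact_mod_cast hq1
  have h3 := hq0 q (le_trans (le_max_left _ _) hq) p
  have h4 : |Real.pi - p / q| = |q * Real.pi - p| / q := by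
    rw [← abs_of_pos hqpos, ← abs_div, abs_of_pos hqpos]
    congr 1
    field_simp
  rw [h4, le_div_iff₀ hqpos]
  refine le_trans (le_of_eq ?_) h3
  conv_lhs => rw [← Real.rpow_one (q : ℝ), ← Real.rpow_mul hqpos.le, ← Real.rpow_add hqpos]
  rw [Real.rpow_def_of_pos hqpos]
  congr 1; ring

end Pool.Agent.H326R2.Pi
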